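import Mathlib
import Pool.Agent.helper81.DI.SpecD
import Pool.Agent.helper58.DC.Spec4
import Pool.Agent.helper12.TY.Spec

/-!
# Project kz (MP_baa4d7_al): common divisors of the alternating sums. Definitions.

`Extension`, `altSum`, `kext`, `KE`, `Cocycle`, `tens`, `SSet`, `pathS`, `cocR`, `QR`, `Stable`, `BlockDefect`, `Bound` are
those of `helper58/DC`, `cSum`, `stF`, `rr`, `OverP`, `Cov`, `Emb`, `ext0`, `CycQ` those of `helper81/DI/Defs.lean`, `Tp` that of
`helper12/TY/Defs.lean`.
-/

set_option autoImplicit false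

namespace Pool.Agent.KZ

open Pool.Agent.helper58.DC Pool.Agent.DI Pool.Agent.TY

/-- `A` has no normal subgroup of index `l`. -/
def NoN (l : ℕ) (A : Type) [Group A] : Prop := ∀ B : Subgroup A, B.Normal → B.index ≠ l

/-- `G'` is normal in `Γ`, it is contained in the kernel of the surjective homomorphism `π`, its index in the kernel divides
`l`, and `Γ` centralises the kernel modulo `G'`. -/
structure Fr (l : ℕ) {Γ A : Type} [Group Γ] [Group A] (π : Γ →* A) (G' : Subgroup Γ) : Prop where
  surj : Function.Surjective π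
  nor : G'.Normal
  le : G' ≤ π.ker
  idx : G'.relIndex π.ker ∣ l
  cen : ∀ x : Γ, ∀ h ∈ π.ker, x * h * x⁻¹ * h⁻¹ ∈ G'

open Classical in
/-- For subgroups `N` with `π N = A`: `|N|` times the number of the irreducible characters of `N ⊓ ker π` of defect `d`
with `Cov` which are invariant under `N`. It is `0` for the other subgroups. -/
noncomputable def gst (p : ℕ) (M : Ideal (integralClosure ℤ ℂ)) {Γ A : Type} [Group Γ] [Group A] (π : Γ →* A)
    (G₀ : Subgroup Γ) (τ : Γ → ℂ) (d : ℤ) (N : Subgroup Γ) : ℤ :=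
  if N.map π = ⊤ then (Nat.card N : ℤ) * Nat.card {φ : Γ → ℂ // φ ∈ IrrOn (N ⊓ π.ker) ∧
    Defect p (N ⊓ π.ker) φ d ∧ Cov M G₀ τ φ ∧ ∀ n ∈ N, funMap (MulAut.conj n) φ = φ} else 0

/-- The subgroups `Q ≠ 1` of the kernel of `π` which are `p`-groups and meet `G'` trivially. -/
def QH (p : ℕ) {Γ A : Type} [Group Γ] [Group A] (π : Γ →* A) (G' : Subgroup Γ) : Set (Subgroup Γ) :=
  {Q | Q ≠ ⊥ ∧ Q ≤ π.ker ∧ IsPGroup p Q ∧ Q ⊓ G' = ⊥}

/-- The extension `1 → ker π → Γ → A → 1`. -/
noncomputable def XK {Γ A : Type} [Group Γ] [Group A] (π : Γ →* A) (h : Function.Surjective π) :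
    Extension π.ker Γ A where
  inc := π.ker.subtype
  proj := π
  inc_injective := Subtype.val_injective
  proj_surjective := h
  exact e := ⟨fun he => ⟨⟨e, he⟩, rfl⟩, fun ⟨g, hg⟩ => by rw [← hg]; exact g.2⟩
  act := MulAut.conjNormal
  act_spec e g := MulAut.conjNormal_apply e g

/-- The trivial embedding. -/
noncomputable def embT {G E A : Type} [Group G] [Group E] [Group A] (X : Extension G E A) :
    Emb X X.inc.range ⊤ 1 where
  i := X.inc
  π := (⊤ : Subgroup E).subtype
  i_inj := X.inc_injective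
  π_surj := fun e => ⟨⟨e, Subgroup.mem_top e⟩, rfl⟩
  range := by rw [top_inf_eq]
  compat := fun _ _ => rfl
  act := fun m k => X.act_spec m.1 k
  card := by
    rw [(MonoidHom.ker_eq_bot_iff _).2 (Subgroup.subtype_injective _)]
    exact Subgroup.card_bot

/-- `e` divides all alternating sums for the extensions with quotient `A`, `U = A` and `d ≥ 1`. -/
def HypE (p : ℕ) (M : Ideal (integralClosure ℤ ℂ)) (A : Type) [Group A] (e : ℤ) : Prop :=
  ∀ (G E : Type) [Group G] [Group E] [Finite G] [Finite E] (X : Extension G E A),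
    IsOp p (⊤ : Subgroup G) ⊥ → ∀ χ ∈ Irr G, ∀ d : ℤ, 1 ≤ d → e ∣ altSum X p M χ d ⊤

/-- The cyclic group of order `l`, with the action of `A × Tp l` by the second factor. -/
@[nolint unusedArguments]
def TT (l : ℕ) (_A : Type) : Type := Tp l

noncomputable instance (l : ℕ) [Fact l.Prime] (A : Type) : Fintype (TT l A) := inferInstanceAs (Fintype (Tp l))

instance (l : ℕ) (A : Type) [Group A] : MulAction (A × Tp l) (TT l A) where
  smul x t := (x.2 * (show Tp l from t) : Tp l)
  one_smul t := one_mul (show Tp l from t)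
  mul_smul x y t := mul_assoc x.2 y.2 (show Tp l from t)

/-- the cocycle -/
def cW (l : ℕ) (A : Type) [Group A] : Cocycle (A × Tp l) (TT l A) A where
  κ x _ := x.1
  mul _ _ _ := rfl

end Pool.Agent.KZ
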