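import Mathlib
import Pool.Agent.helper12.KZ.Defs

/-!
# Project kz (MP_baa4d7_al): common divisors of the alternating sums

THEOREM. Let `l` be a prime (`l = p` is allowed) and `A` a finite group without normal subgroup of index `l`. If `l` divides
all alternating sums with `E / G = A = U` and `d ≥ 1`, all these sums are `0`. Hence (KFN): Dade's invariant conjecture for `p`
holds iff for all `c > 0`, `D₀ ≥ 1` there is `k ≥ 1` such that the alternating sums with `E / G` an alternating group of degree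
`≥ m₀`, `U = E / G`, `d(B) = k D₀`, `N ∣ d` are all `< exp (c k D₀)` or have a common divisor `n ≥ 2`.

IDEA. Let `l ^ k`, `k ≥ 1`, divide all sums with `E / G = A = U`. Let `Γ` be the subgroup of the wreath product of `E` with the
cyclic group `Tp l` of order `l` of all elements whose components have the same image in `A`, so `1 → G ^ l → Γ → A × Tp l → 1`,
and `H` (the wreath product of `G` with `Tp l`) the kernel of `π : Γ → A`. For `F e = altSum X p M χ e ⊤` the relation KRL (count the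
characters of `N_H(C)` which are invariant under `N_Γ(C)`; Clifford theory for `G ^ l ≤ H`) is, modulo `l ^ (k + 1)`,
`0 = (sum over the e₁ + ... + e_l = l d of the products of the F eᵢ) - F d + l ^ 2 (..)`, so `l ^ (k + 1)` divides `F d`. For `l = p`
there are corrections for the `p`-subgroups `Q` of `H` with `Q ⊓ G ^ l = 1`; they are `p ^ 2` times sums with quotient `A`.

Rules: row `kz:XX` is the theorem `XX : XX_stmt` in the file `Pool/Agent/<seat>/KZ/XX.lean`, namespace `Pool.Agent.KZ`,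
`import Pool.Agent.helper12.KZ.Spec`, with the same `open` line. Auxiliary lemmas get the prefix `XX_`. Other rows of this file,
and rows of the projects dc (`Pool.Agent.helper58.DC`), di (`Pool.Agent.DI`), ty (`Pool.Agent.TY`), may be hypotheses
`(hYY : YY_stmt)`; all of them are proved or will be.
-/

set_option autoImplicit false

namespace Pool.Agent.KZ

open Pool.Agent.helper58.DC Pool.Agent.DI Pool.Agent.TY

/-! ## A. Chains -/

/-- **KAN** (short). A9 and A11 of DI if only `Q` is centralised modulo `G`. Proof: for `x ∈ nz Q`, `q ∈ Q` the commutator is in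
`Q ⊓ G = ⊥`, so `nz Q = cz Q`, and `Q` is commutative. The second item: the proof of A11 (`Pool/Agent/<seat>/DI/A11.lean`) with this
instead of A9. -/
def KAN_stmt : Prop :=
  ∀ (Γ : Type) [Group Γ] [Finite Γ] (p : ℕ) [Fact p.Prime] (G Q M : Subgroup Γ)
    (g : Subgroup Γ → ℤ), G.Normal → (∀ x : Γ, ∀ q ∈ Q, x * q * x⁻¹ * q⁻¹ ∈ G) → IsPGroup p Q →
    Q ⊓ G = ⊥ → nz Q = cz Q ∧ Q ≤ cz Q ∧
    cSum p (cz Q ⊓ (Q ⊔ G)) Q M g = cSum p (G ⊓ cz Q) ⊥ (M ⊓ cz Q) g

/-- **KDP** (short; compare `Pool/Agent/helper71/TY/YDC.lean`). The chains of `H = π.ker`, `l = p`. Proof: A10 with `L = H`, `Q = ⊥`, `M = ⊤`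
(`nz ⊥ = ⊤`, `H ⊓ (⊥ ⊔ G') = G'`): `cSum p H ⊥ ⊤ g = cSum p G' ⊥ ⊤ g - ∑_{Q ∈ QH} cSum p H Q ⊤ g`. For `Q ∈ QH`: by A3 and KAN (hypothesis:
`Fr.cen`) `cSum p H Q ⊤ g = cSum p (H ⊓ cz Q) Q ⊤ g`; in A10 with `L = H ⊓ cz Q` the sum on the right is empty, because a subgroup of `H`
which meets `G'` trivially has at most `p` elements, so it is `cSum p (H ⊓ cz Q ⊓ (Q ⊔ G')) Q ⊤ g = cSum p (cz Q ⊓ (Q ⊔ G')) Q ⊤ g`
(`Q ⊔ G' ≤ H`), and KAN. Uses: KAN, A3, A10 of DI. -/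
def KDP_stmt : Prop :=
  ∀ (Γ A : Type) [Group Γ] [Group A] [Finite Γ] (p : ℕ) [Fact p.Prime] (π : Γ →* A) (G' : Subgroup Γ)
    (g : Subgroup Γ → ℤ), Fr p π G' →
    cSum p π.ker ⊥ ⊤ g = cSum p G' ⊥ ⊤ g - ∑ᶠ Q ∈ QH p π G', cSum p (G' ⊓ cz Q) ⊥ (cz Q) g

/-- **KDL** (short). The chains of `H = π.ker`, `l ≠ p`. Proof: the `p`-subgroups of `π.ker` are contained in `G'` (the image in the
quotient, of order dividing `l`, is trivial), so `PCh p π.ker ⊥ C ↔ PCh p G' ⊥ C`. -/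
def KDL_stmt : Prop :=
  ∀ (Γ A : Type) [Group Γ] [Group A] [Finite Γ] (p l : ℕ) [Fact p.Prime] [Fact l.Prime] (π : Γ →* A)
    (G' : Subgroup Γ) (g : Subgroup Γ → ℤ), l ≠ p → Fr l π G' → cSum p π.ker ⊥ ⊤ g = cSum p G' ⊥ ⊤ g

/-- **KOS** (short; adapt `Pool/Agent/helper28/TY/YOS.lean`). Sums over orbits. Proof: `G'` acts on `QH p π G'` by conjugation. The stabiliser
of `Q` is `G' ⊓ nz Q = G' ⊓ cz Q` (KAN), so the orbit of `Q` has `|G'| / |G' ⊓ cz Q|` elements; `T` is constant on it, and the sum over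
the orbit is a multiple of `N * |G'|`. -/
def KOS_stmt : Prop :=
  ∀ (p : ℕ) [Fact p.Prime] (Γ A : Type) [Group Γ] [Group A] [Finite Γ] (π : Γ →* A) (G' : Subgroup Γ),
    Fr p π G' → ∀ (T : Subgroup Γ → ℤ) (N : ℤ),
    (∀ u ∈ G', ∀ Q ∈ QH p π G', T (Q.map (MulAut.conj u).toMonoidHom) = T Q) →
    (∀ Q ∈ QH p π G', N * (Nat.card ↥(G' ⊓ cz Q) : ℤ) ∣ T Q) →
    N * (Nat.card G' : ℤ) ∣ ∑ᶠ Q ∈ QH p π G', T Q

/-- **KCI** (short to medium; adapt `Pool/Agent/helper41/TY/YCI.lean`). The correction terms are invariant. Proof: as YCI; also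
`(N.map (conj u)).map π` is `⊤` iff `N.map π = ⊤` (conjugate by `π u`), `N.map (conj u) ⊓ π.ker = (N ⊓ π.ker).map (conj u)`, and `φ` is
invariant under `N` iff `funMap (conj u) φ` is invariant under `N.map (conj u)`. -/
def KCI_stmt : Prop :=
  ∀ (p : ℕ) [Fact p.Prime] (M : Ideal (integralClosure ℤ ℂ)) (Γ A : Type) [Group Γ] [Group A]
    [Finite Γ] (π : Γ →* A) (G' G₀ : Subgroup Γ), G'.Normal → G₀.Normal →
    ∀ (τ : Γ → ℂ) (d : ℤ) (u : Γ) (Q : Subgroup Γ),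
    cSum p (G' ⊓ cz (Q.map (MulAut.conj u).toMonoidHom)) ⊥ (cz (Q.map (MulAut.conj u).toMonoidHom))
      (gst p M π G₀ τ d) = cSum p (G' ⊓ cz Q) ⊥ (cz Q) (gst p M π G₀ τ d)

/-! ## B. Clifford theory for subgroups of prime index -/

/-- **KBC** (short; adapt the proof of B10 of DI). Clifford theory for `K ≤ N ≤ Γ` with `N / K` cyclic. Proof: B9 for the group `N` and its subgroup
`K.subgroupOf N`; functions on `Γ` supported on `N` correspond to functions on `N`. Uses: B9 of DI. -/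
def KBC_stmt : Prop :=
  ∀ (Γ : Type) [Group Γ] [Finite Γ] (K N : Subgroup Γ), K ≤ N → CycQ (K.subgroupOf N) →
    (∀ φ ∈ IrrOn N, ∃ ψ ∈ IrrOn K, OverP K N φ ψ) ∧
    (∀ ψ ∈ IrrOn K, Nat.card {φ : Γ → ℂ // φ ∈ IrrOn N ∧ OverP K N φ ψ} * Nat.card K =
      Nat.card (stF N ψ)) ∧
    (∀ φ : Γ → ℂ, ∀ ψ ∈ IrrOn K, ∀ ψ' ∈ IrrOn K, OverP K N φ ψ → OverP K N φ ψ' →
      ∃ n ∈ N, ψ' = funMap (MulAut.conj n) ψ)

/-- **KBS** (medium). If `ψ` is invariant under `N` and `A` has no normal subgroup of index `l`, the characters over `ψ` are invariant.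
Proof: let `K = N ⊓ G'`, `N₁ = N ⊓ π.ker`. `N` normalises `K` and `N₁`, `[N, N₁] ≤ K`, `|N₁ : K|` divides `l`, so `N₁ / K` is cyclic. Let `Λ`, `λ` be
as in B5 (for the group `N₁` and its subgroup `K`), `|Λ| = |N₁ : K|`. As `ψ` is invariant under `N₁`, `φ = ψ` on `K`, and by B8 the `λ a · φ`,
`a ∈ Λ`, are distinct; they are over `ψ`, and by KBC (2) there are `|N₁ : K|` characters over `ψ`, so these are all. For `n ∈ N` the
character `funMap (conj n) φ` of `N₁` is over `ψ`, so it is `λ (μ n) · φ` for exactly one `μ n ∈ Λ`. The `λ a` are invariant under `N` (`[N, N₁] ≤ K`),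
so `μ : N → Λ` is a homomorphism. It is trivial on `N₁` (B2). Let `B = μ.ker.map π`. It is normal in `A` (`N.map π = ⊤`) and its index
is `|N : μ.ker|` (`N₁ ≤ μ.ker`), which divides `|Λ|`, so it is `1` or `l`. By `NoN` it is `1`. Uses: KBC, B2, B5, B6, B8 of DI. -/
def KBS_stmt : Prop :=
  ∀ (Γ A : Type) [Group Γ] [Group A] [Finite Γ] (l : ℕ) [Fact l.Prime], NoN l A →
    ∀ (π : Γ →* A) (G' N : Subgroup Γ), Fr l π G' → N.map π = ⊤ → ∀ ψ ∈ IrrOn (N ⊓ G'),
    stF N ψ = N → ∀ φ ∈ IrrOn (N ⊓ π.ker), OverP (N ⊓ G') (N ⊓ π.ker) φ ψ →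
    ∀ n ∈ N, funMap (MulAut.conj n) φ = φ

/-- **KBW** (medium; compare B12 of DI). Weighted count. Proof: let `K = N ⊓ G'`, `N₁ = N ⊓ π.ker` (`N₁ ⊓ G' = K`). If `N.map π ≠ ⊤` both sides
are `0` (`stF N ψ ≤ N`). Let `N.map π = ⊤`, so `|N| = |A| |N₁|`. Let `r = rr G' N₁ ψ`, so `|stF N₁ ψ| = r |K|`. Count the pairs `(φ, ψ)`, `φ` one of
the characters counted by `gst`, `ψ ∈ IrrOn K`, `OverP K N₁ φ ψ`. (1) If `φ` is invariant under `N` and over `ψ` then `(stF N ψ).map π = ⊤`: for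
`n ∈ N` the character `n ψ` is under `n φ = φ`, so `n ψ = n₁ ψ` with `n₁ ∈ N₁` (KBC (3)) and `n₁⁻¹ n ∈ stF N ψ`. (2) Let `(stF N ψ).map π = ⊤` and
`φ` over `ψ`. `r` divides `l` (it divides `|N₁ : K|`). If `r = 1` the character `φ` over `ψ` is unique (KBC (2)), `n = s n₁` with
`s ∈ stF N ψ`, `n₁ ∈ N₁` for `n ∈ N`, and `n φ = s φ = φ`. If `r = l` then `stF N₁ ψ = N₁`, so `stF N ψ = N`, and KBS. (3) So every `φ` is over
`|N₁| / |stF N₁ ψ|` characters `ψ` of the set on the right, and every such `ψ` is under `r` characters `φ`; `Defect` and `Cov`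
(`G₀ ≤ G'`) correspond as in B12 (B11 for `N₁`; `φ 1 = (|N₁| / |stF N₁ ψ|) ψ 1`). So `|N| #{φ} = |N| ∑_ψ r |stF N₁ ψ| / |N₁| = |A| |K| ∑_ψ r ^ 2`.
Uses: KBC, KBS, B2, B11 of DI. -/
def KBW_stmt : Prop :=
  ∀ (Γ A : Type) [Group Γ] [Group A] [Finite Γ] (p l : ℕ) [Fact p.Prime] [Fact l.Prime]
    (M : Ideal (integralClosure ℤ ℂ)), NoN l A → ∀ (π : Γ →* A) (G' G₀ N : Subgroup Γ), Fr l π G' →
    G₀ ≤ G' → ∀ (τ : Γ → ℂ) (d : ℤ),
    gst p M π G₀ τ d N = (Nat.card A : ℤ) * (Nat.card (N ⊓ G' : Subgroup Γ) *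
      ∑ᶠ ψ ∈ {ψ : Γ → ℂ | ψ ∈ IrrOn (N ⊓ G') ∧ Cov M G₀ τ ψ ∧ (stF N ψ).map π = ⊤ ∧
        Defect p (N ⊓ G') ψ (d - padicValNat p (rr G' (N ⊓ π.ker) ψ))}, ((rr G' (N ⊓ π.ker) ψ : ℤ) ^ 2))

/-! ## C. Evaluation of the sums over chains -/

/-- **KCF** (medium; compare D2 and D3 of DI). The function `gst` for an embedded extension. Proof: let `N = M' ⊓ nrm (cmap ε.i C)`. By D2
`N ⊓ G' = (nrm C).map ε.i`; the elements of `IrrOn (N ⊓ G')` are the `ext0 ε.i ψ`, `ψ ∈ IrrOn (nrm C)`, with the same defects (B13). By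
`ε.act`, B13 and B14, for `m ∈ M'`: `m ∈ stF N (ext0 ε.i ψ)` iff `ε.π m ∈ Y.stab C ψ`. Let `U = (Y.stab C ψ).map Y.proj`. So
`(stF N (ext0 ε.i ψ)).map π = U.map ρ`, and `stF (N ⊓ π.ker) (ext0 ε.i ψ)` is the set of the `m ∈ M'` such that `ε.π m` is in
`Y.stab C ψ` and `ρ (Y.proj (ε.π m)) = 1`, its order is `q |U ⊓ ρ.ker| |nrm C|` (`ε.card`; the kernel of `Y.proj` on `Y.stab C ψ` is
the image of `nrm C`, see D2). So `rr G' (N ⊓ π.ker) (ext0 ε.i ψ) = q |U ⊓ ρ.ker|`. KBW, and group the `ψ` by `U`.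
Uses: KBW, B2, B13, B14, D2 of DI, SN of DC. -/
def KCF_stmt : Prop :=
  ∀ (K E A' A Γ : Type) [Group K] [Group E] [Group A'] [Group A] [Group Γ] [Finite K] [Finite E]
    [Finite Γ] (Y : Extension K E A') (G' M' G₀ : Subgroup Γ) (q : ℕ) (ε : Emb Y G' M' q)
    (p l : ℕ) [Fact p.Prime] [Fact l.Prime] (M : Ideal (integralClosure ℤ ℂ)), NoN l A →
    ∀ (π : Γ →* A) (ρ : A' →* A), Fr l π G' → G₀ ≤ G' → (∀ m : M', ρ (Y.proj (ε.π m)) = π m) →
    ∀ (τ : Γ → ℂ) (d : ℤ) (C : Finset (Subgroup K)), IsChain (· ≤ ·) (C : Set (Subgroup K)) →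
    C.Nonempty →
    gst p M π G₀ τ d (M' ⊓ nrm (cmap ε.i C)) = (Nat.card A : ℤ) * ((Nat.card (nrm C) : ℤ) *
      ∑ᶠ U ∈ {U : Subgroup A' | U.map ρ = ⊤}, ((q * Nat.card (U ⊓ ρ.ker : Subgroup A') : ℕ) : ℤ) ^ 2 *
        (Nat.card {ψ : K → ℂ // ψ ∈ IrrOn (nrm C) ∧
          Defect p (nrm C) ψ (d - padicValNat p (q * Nat.card (U ⊓ ρ.ker : Subgroup A'))) ∧
          Cov M G₀ τ (ext0 ε.i ψ) ∧ (Y.stab C ψ).map Y.proj = U} : ℤ))

open Classical in
/-- **KCS** (short to medium; adapt `Pool/Agent/<seat>/DI/D4.lean`). Summation over the radical chains. Proof: as D4: every `ψ ∈ IrrOn (nrm C)`, `C` radical,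
induces to the block of exactly one `b ∈ R` (C9), and then `Cov` for `ext0 ε.i ψ` and for `ext0 ε.i b` are equivalent (C16, C1).
Exchange the (finite) sums and use D1. Uses: KCF, B2, C1, C9, C16, D1 of DI. -/
def KCS_stmt : Prop :=
  ∀ (K E A' A Γ : Type) [Group K] [Group E] [Group A'] [Group A] [Group Γ] [Finite K] [Finite E]
    [Finite Γ] (Y : Extension K E A') (G' M' G₀ : Subgroup Γ) (q : ℕ) (ε : Emb Y G' M' q)
    (p l : ℕ) [Fact p.Prime] [Fact l.Prime] (M : Ideal (integralClosure ℤ ℂ)), M.IsMaximal →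
    (p : integralClosure ℤ ℂ) ∈ M → NoN l A → ∀ (π : Γ →* A) (ρ : A' →* A), Fr l π G' → G₀ ≤ G' →
    (∀ m : M', ρ (Y.proj (ε.π m)) = π m) → ∀ (τ : Γ → ℂ) (d : ℤ) (R : Finset (K → ℂ)),
    (∀ b ∈ R, b ∈ Irr K) →
    (∀ ψ : K → ℂ, (∃ χ ∈ Irr K, Induces M ψ χ) → ∃! b, b ∈ R ∧ Induces M ψ b) →
    ∑ᶠ C ∈ {C : Finset (Subgroup K) | IsRadical p C},
      (-1) ^ (C.card + 1) * gst p M π G₀ τ d (M' ⊓ nrm (cmap ε.i C)) =
    ∑ b ∈ R, if Cov M G₀ τ (ext0 ε.i b) then (Nat.card A : ℤ) *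
      ∑ᶠ U ∈ {U : Subgroup A' | U.map ρ = ⊤}, ((q * Nat.card (U ⊓ ρ.ker : Subgroup A') : ℕ) : ℤ) ^ 2 *
        ((Nat.card K : ℤ) *
          altSum Y p M b (d - padicValNat p (q * Nat.card (U ⊓ ρ.ker : Subgroup A'))) U) else 0

/-- **KEH** (short to medium). The chains of `π.ker`. Proof: `IsOp p π.ker ⊥` (A14), so by A7 (`M ⊓ nz ⊥ ≤ nz π.ker`, `π.ker` is normal) the
left side is `rSum p π.ker ⊤ _`, and by A8 for `i = π.ker.subtype` it is the left side of KCS for `Y = XK π h`, `ε = embT (XK π h)`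
(`(XK π h).inc.range = π.ker`, `M' = ⊤`, `q = 1`, `ρ = MonoidHom.id A`, `Fr l π π.ker` is clear), `R` from C15. `U.map id = ⊤` iff
`U = ⊤`, and `⊤ ⊓ ker id = ⊥`. Take the `b ∈ R` with `Cov`. Uses: KCS, A7, A8, A14, C15 of DI. -/
def KEH_stmt : Prop :=
  ∀ (Γ A : Type) [Group Γ] [Group A] [Finite Γ] (p l : ℕ) [Fact p.Prime] [Fact l.Prime]
    (M : Ideal (integralClosure ℤ ℂ)), M.IsMaximal → (p : integralClosure ℤ ℂ) ∈ M → NoN l A →
    ∀ (π : Γ →* A) (h : Function.Surjective π) (G₀ : Subgroup Γ), G₀ ≤ π.ker →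
    IsOp p (⊤ : Subgroup π.ker) ⊥ → ∀ (τ : Γ → ℂ) (d : ℤ),
    ∃ R : Finset (π.ker → ℂ), (∀ b ∈ R, b ∈ Irr π.ker) ∧
      cSum p π.ker ⊥ ⊤ (gst p M π G₀ τ d) =
        (Nat.card A : ℤ) * ((Nat.card π.ker : ℤ) * ∑ b ∈ R, altSum (XK π h) p M b d ⊤)

/-- **KEG** (short to medium; compare D11 of DI). The chains of `G' = X.inc.range`. Proof: by A7, A14, A8 (`i = X.inc`) the left side is
the left side of KCS for `Y = X`, `ε = embT X`, `M' = ⊤`, `q = 1`, `R` from C15. If `b ∈ R` and `Cov` holds for `ext0 X.inc b` then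
`Induces M b χ` by C10; exactly one `b ∈ R` has this property, and it satisfies `Cov` (C16). Now D0. Uses: KCS, A7, A8, A14, C1, C10,
C15, C16, D0 of DI, IM of DC. -/
def KEG_stmt : Prop :=
  ∀ (G Γ A' A : Type) [Group G] [Group Γ] [Group A'] [Group A] [Finite G] [Finite Γ]
    (X : Extension G Γ A') (ρ : A' →* A) (p l : ℕ) [Fact p.Prime] [Fact l.Prime]
    (M : Ideal (integralClosure ℤ ℂ)), M.IsMaximal → (p : integralClosure ℤ ℂ) ∈ M → NoN l A →
    Fr l (ρ.comp X.proj) X.inc.range → IsOp p (⊤ : Subgroup G) ⊥ → ∀ χ ∈ Irr G, Stable X M χ →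
    ∀ d : ℤ,
    cSum p X.inc.range ⊥ ⊤ (gst p M (ρ.comp X.proj) X.inc.range (omega (ext0 X.inc χ)) d) =
      (Nat.card A : ℤ) * ((Nat.card G : ℤ) * ∑ᶠ U ∈ {U : Subgroup A' | U.map ρ = ⊤},
        (Nat.card (U ⊓ ρ.ker : Subgroup A') : ℤ) ^ 2 *
          altSum X p M χ (d - padicValNat p (Nat.card (U ⊓ ρ.ker : Subgroup A'))) U)

/-- **KEQ** (medium; compare D9 and D10 of DI and `Pool/Agent/helper53/TY/YTQ.lean`). The correction terms. Proof: let `K = G' ⊓ cz Q`. If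
`(cz Q).map π ≠ ⊤` all values of `gst` are `0` (`n = 0`). If `O_p(K) ≠ ⊥` the sum is `0` by A4 (`cz Q` normalises `K`). Otherwise
`|Q| = p`, `π.ker = Q ⊔ G'`, and `cz Q ⊓ π.ker = Q ⊔ K` (`Q ≤ cz Q` by KAN). Let `E' = cz Q ⧸ Q` (`Q.subgroupOf (cz Q)` is normal), `Y` the extension
`1 → K → E' → A → 1` (the projection is induced by `π`, the action of `cz Q` on `K` by conjugation factors through `E'`), `ε` the
embedding with `ε.i` the inclusion of `K`, `ε.π` the projection `cz Q → E'`, `M' = cz Q`, `q = p`. By A7, A14, A8 the left side is that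
of KCS (`ρ = MonoidHom.id A`, `R` from C15); `U.map id = ⊤` iff `U = ⊤`, `q * 1 = p`, `padicValNat p p = 1`. So `n` is the sum over the `b ∈ R`
with `Cov` of `altSum Y p M b (d - 1) ⊤`. Uses: KCS, KAN, A2, A4, A7, A8, A14, C15 of DI. -/
def KEQ_stmt : Prop :=
  ∀ (Γ A : Type) [Group Γ] [Group A] [Finite Γ] (p : ℕ) [Fact p.Prime]
    (M : Ideal (integralClosure ℤ ℂ)), M.IsMaximal → (p : integralClosure ℤ ℂ) ∈ M → NoN p A →
    ∀ (π : Γ →* A) (G' G₀ : Subgroup Γ), Fr p π G' → G₀ ≤ G' → ∀ (τ : Γ → ℂ) (d : ℤ),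
    ∀ Q ∈ QH p π G', ∃ n : ℤ,
      cSum p (G' ⊓ cz Q) ⊥ (cz Q) (gst p M π G₀ τ d) =
        (p : ℤ) ^ 2 * ((Nat.card A : ℤ) * ((Nat.card ↥(G' ⊓ cz Q) : ℤ) * n)) ∧
      ∀ e : ℤ, (∀ (E' : Type) [Group E'] [Finite E'] (Y : Extension ↥(G' ⊓ cz Q) E' A),
        IsOp p (⊤ : Subgroup ↥(G' ⊓ cz Q)) ⊥ → ∀ b ∈ Irr ↥(G' ⊓ cz Q),
          e ∣ altSum Y p M b (d - 1) ⊤) → e ∣ n

/-- **KRL** (medium). The relation modulo `l * e`. Proof: let `π = ρ.comp X.proj`, `G' = X.inc.range`, `H = π.ker`, `g = gst p M π G' τ d` with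
`τ = omega (ext0 X.inc χ)`. `Fr l π G'`: the index of `G'` in `H` is `|ρ.ker| = l`, commutators of `Γ` and `H` are mapped to
commutators of `A'` and `ρ.ker`, which are trivial. `|H| = l |G|`. By KEH (`G₀ = G'`) and `HypE` `cSum p H ⊥ ⊤ g` is divisible by
`|A| |G| l e`. If `l ≠ p` it is `cSum p G' ⊥ ⊤ g` (KDL). If `l = p` it is `cSum p G' ⊥ ⊤ g - ∑_Q T Q` (KDP), where by KEQ and `HypE`
(`d - 1 ≥ 1`) `T Q` is divisible by `p ^ 2 |A| e |G' ⊓ cz Q|`, so `∑_Q T Q` is divisible by `p ^ 2 |A| e |G'|` (KOS with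
`N = p ^ 2 |A| e`, KCI). In both cases `|A| |G| l e` divides `cSum p G' ⊥ ⊤ g`; KEG, and divide by `|A| |G|`.
Uses: KEH, KDL, KDP, KEQ, KOS, KCI, KEG. -/
def KRL_stmt : Prop :=
  ∀ (G Γ A' A : Type) [Group G] [Group Γ] [Group A'] [Group A] [Finite G] [Finite Γ]
    (X : Extension G Γ A') (ρ : A' →* A) (p l : ℕ) [Fact p.Prime] [Fact l.Prime]
    (M : Ideal (integralClosure ℤ ℂ)), M.IsMaximal → (p : integralClosure ℤ ℂ) ∈ M → NoN l A →
    Function.Surjective ρ → Nat.card ρ.ker = l → (∀ a : A', ∀ k ∈ ρ.ker, a * k = k * a) →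
    IsOp p (⊤ : Subgroup G) ⊥ → IsOp p (⊤ : Subgroup (ρ.comp X.proj).ker) ⊥ →
    ∀ e : ℤ, HypE p M A e → ∀ χ ∈ Irr G, Stable X M χ → ∀ d : ℤ, 2 ≤ d →
    (l : ℤ) * e ∣ ∑ᶠ U ∈ {U : Subgroup A' | U.map ρ = ⊤}, (Nat.card (U ⊓ ρ.ker : Subgroup A') : ℤ) ^ 2 *
      altSum X p M χ (d - padicValNat p (Nat.card (U ⊓ ρ.ker : Subgroup A'))) U

/-! ## D. The wreath product -/

/-- **KSU** (short). Subgroups of `A × Tp l` which are mapped onto `A`. Proof: let `B` be the set of the `a` with `(a, 1) ∈ U`, a normal subgroup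
of `A` (`(a, t) ∈ U` for some `t`; conjugate by it). If `U` contains some `(1, t)`, `t ≠ 1`, then `⊥ × Tp l ≤ U` (`Tp l` has prime
order) and `U = ⊤`. Otherwise for every `a` there is exactly one `f a` with `(a, f a) ∈ U`, `f : A → Tp l` is a homomorphism with
kernel `B`, and the index of `B` divides `l`, so it is `1` by `NoN`, and `U = ⊤ × ⊥`. -/
def KSU_stmt : Prop :=
  ∀ (l : ℕ) [Fact l.Prime] (A : Type) [Group A] [Finite A], NoN l A → ∀ U : Subgroup (A × Tp l),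
    U.map (MonoidHom.fst A (Tp l)) = ⊤ ↔ U = ⊤ ∨ U = (⊤ : Subgroup A).prod ⊥

/-- **KWX** (short to medium). The extension `kext X (cW l A)`. Proof: SK and PT of DC, and for the third item as in YWF
(`Pool/Agent/helper3/TY/YWF.lean`): the elements of the kernel `H` are the `x` with `x.l.1 = 1`, so every `x.f t` is in `X.inc.range`. A
`p`-subgroup `Q` of `H` normalised by `H` meets the image of `TT l A → G` trivially, so it commutes with it, and if `q ∈ Q`, `q.l.2 ≠ 1`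
take the function with value `a ≠ 1` at one point and `1` elsewhere. (Or: `H` is isomorphic to `WG l G` of TY; YWF and A14 of DI.) The
other items are clear. -/
def KWX_stmt : Prop :=
  ∀ (p l : ℕ) [Fact p.Prime] [Fact l.Prime] (G E A : Type) [Group G] [Group E] [Group A] [Finite G]
    [Finite E] (X : Extension G E A), Nontrivial G → IsOp p (⊤ : Subgroup G) ⊥ →
    Finite (KE X (cW l A)) ∧ IsOp p (⊤ : Subgroup (TT l A → G)) ⊥ ∧
    IsOp p (⊤ : Subgroup ((MonoidHom.fst A (Tp l)).comp (kext X (cW l A)).proj).ker) ⊥ ∧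
    Nat.card (MonoidHom.fst A (Tp l)).ker = l ∧
    (∀ a : A × Tp l, ∀ k ∈ (MonoidHom.fst A (Tp l)).ker, a * k = k * a) ∧
    Nat.card (((⊤ : Subgroup A).prod ⊥ ⊓ (MonoidHom.fst A (Tp l)).ker : Subgroup (A × Tp l))) = 1

/-- **KWN** (medium; compare `Pool/Agent/helper76/TY/YWN.lean` and `altSum_kext` in `helper58/DC/FA.lean`). The numbers for the wreath product.
Proof: let `S` be the `A`-set of `altSum_kext`: `altSum X p M χ d U = S.num d U` and `altSum (kext X c) p M _ d V = (pathS S c).num d V`,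
`c = cW l A`. By MB `fix d ⊤ = num d ⊤` for both, and `(pathS S c).fix d V₀ = num d V₀ + num d ⊤` for `V₀ = ⊤ × ⊥` (a subgroup which contains `V₀` is
`V₀` or `⊤`). By FX `fix d ⊤` is the sum over the `z : TT l A → S.Z` with `z (x • t) = S.act x.1 (z t)` for all `x`, that is, `z` is
constant with value `z₀` fixed by `A`, `l * S.dfc z₀ = d`, of `(-1) ^ S.len z₀` (one orbit): (1) and (2). And `fix d V₀` is the sum over
the `z` with all `z t` fixed by `A` (`V₀` acts trivially on `TT l A`) and `∑ S.dfc (z t) = d` of `∏_t (-1) ^ S.len (z t)`, so it is the sum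
over the `e : TT l A → ℤ` with `∑ e t = d` of the `∏_t S.fix (e t) ⊤` (only finitely many `e` matter): (3), as every factor is divisible
by `n`. Uses: CL0, CL1, PR, IS, PT, SK, MB, FX of DC. -/
def KWN_stmt : Prop :=
  ∀ (p l : ℕ) [Fact p.Prime] [Fact l.Prime] (M : Ideal (integralClosure ℤ ℂ)) (G E A : Type)
    [Group G] [Group E] [Group A] [Finite G] [Finite E] (X : Extension G E A),
    IsOp p (⊤ : Subgroup G) ⊥ → ∀ χ ∈ Irr G, Stable X M χ →
    (∀ e : ℤ, altSum (kext X (cW l A)) p M (tens fun _ : TT l A => χ) (l * e) ⊤ =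
      altSum X p M χ e ⊤) ∧
    (∀ d : ℤ, ¬ (l : ℤ) ∣ d →
      altSum (kext X (cW l A)) p M (tens fun _ : TT l A => χ) d ⊤ = 0) ∧
    ∀ n : ℤ, (∀ e : ℤ, n ∣ altSum X p M χ e ⊤) → ∀ d : ℤ,
      n ^ l ∣ altSum (kext X (cW l A)) p M (tens fun _ : TT l A => χ) d ((⊤ : Subgroup A).prod ⊥) +
        altSum (kext X (cW l A)) p M (tens fun _ : TT l A => χ) d ⊤

/-- **KST** (medium). The step. Proof: let `X`, `χ`, `d ≥ 1` be as in `HypE`, `F e = altSum X p M χ e ⊤`. If the block of `χ` does not have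
positive defect `F d = 0` (D5), if it is not stable `F d = 0` (ST). Otherwise `G` is nontrivial (a trivial group has no character of
positive defect) and `l ^ k ∣ F e` for all `e` (`F e = 0` for `e ≤ 0`: D6). Apply KRL to `kext X (cW l A)`, `ρ = fst`, `tens fun _ => χ`, `e = l ^ k`
and the degree `l d ≥ 2` (KWX; the block is stable by SK, irreducible by PT). By KSU the sum is over `V₀ = ⊤ × ⊥` and `⊤`:
`l ^ (k + 1)` divides `a V₀ + l ^ 2 b`, where `a V₀ = altSum _ (l d) V₀` and `b = altSum _ (l d - padicValNat p l) ⊤` (`V₀ ⊓ ker` has order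
`1`, `⊤ ⊓ ker` order `l`). By KWN (1), (2) `b = F d` if `l ≠ p` and `b = 0` if `l = p` (`p ∤ p d - 1`), so `l ^ (k + 2) ∣ l ^ 2 b` and
`l ^ (k + 1) ∣ a V₀`. By KWN (3), (1) `(l ^ k) ^ l ∣ a V₀ + F d`, and `k l ≥ k + 1`. Uses: KRL, KSU, KWX, KWN, D5, D6 of DI, ST, SK, PT of DC. -/
def KST_stmt : Prop :=
  ∀ (p l : ℕ) [Fact p.Prime] [Fact l.Prime] (M : Ideal (integralClosure ℤ ℂ)), M.IsMaximal →
    (p : integralClosure ℤ ℂ) ∈ M → ∀ (A : Type) [Group A] [Finite A], NoN l A → ∀ k : ℕ, 1 ≤ k →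
    HypE p M A ((l : ℤ) ^ k) → HypE p M A ((l : ℤ) ^ (k + 1))

/-- **KIN** (short). Proof: `HypE p M A (l ^ k)` for all `k ≥ 1` by induction (KST), and an integer divisible by all powers of `l`
is `0`. -/
def KIN_stmt : Prop :=
  ∀ (p l : ℕ) [Fact p.Prime] [Fact l.Prime] (M : Ideal (integralClosure ℤ ℂ)), M.IsMaximal →
    (p : integralClosure ℤ ℂ) ∈ M → ∀ (A : Type) [Group A] [Finite A], NoN l A →
    HypE p M A l → HypE p M A 0

/-! ## E. The criterion -/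

/-- **KNA** (short to medium, Mathlib only). Alternating groups. Proof: let `B` be a normal subgroup of index `l`, `l` prime. The quotient is cyclic, so
`B` contains all commutators. For `m ≥ 5` every 3-cycle `(a b c)` is a commutator of 3-cycles: `⁅(a b d), (a c e)⁆` with `a, b, c, d, e`
distinct (up to the convention; or: the 3-cycle `σ` is conjugate to `σ⁻¹` in the alternating group, `τ σ τ⁻¹ = σ⁻¹`, so
`τ σ τ⁻¹ σ⁻¹ = σ⁻² = σ`), so `B` contains all 3-cycles and is `⊤` (`Equiv.Perm.closure_three_cycles_eq_alternating`, or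
`alternatingGroup.normalClosure...`). -/
def KNA_stmt : Prop :=
  ∀ (m l : ℕ), 5 ≤ m → l.Prime → NoN l (alternatingGroup (Fin m))

/-- **KTR** (short to medium; adapt TR of DC, `Pool/Agent/helper34/DC/TR.lean`, and TP, `Pool/Agent/helper59/DC/TP.lean`). As TR, modulo `n`. Proof: the left sum
is the sum over the functions `e : Fin r → ℤ` with `∑ e i = r * D` of the products of the `S.fix (e i) ⊤` (the families fixed by `L`
are given by `r` elements fixed by `A`, see TR); if some `e i > D` the product is divisible by `n`, otherwise all `e i = D`. -/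
def KTR_stmt : Prop :=
  ∀ (A L Q : Type) [Group A] [Group L] [MulAction L Q] [Fintype Q]
    [MulAction.IsPretransitive L Q] (S : SSet A) (c : Cocycle L Q A) (q₀ : Q) (r : ℕ) (D n : ℤ),
    (∀ a : A, ∃ l : L, l • q₀ = q₀ ∧ c.κ l q₀ = a) → (∀ d > D, n ∣ S.fix d ⊤) →
      n ∣ (pathS S (cocR c r)).fix ((Fintype.card Q : ℤ) * r * D) ⊤ - (S.fix D ⊤) ^ r

/-- **KPW** (short to medium; compare the proof of FG in `Pool/Agent/helper58/DC/FG.lean`). Powers. Proof: take `Q`, `c`, `q₀` from CO for `j = id : A →* A`,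
`q = card Q` (`≥ 1`), `X' = kext X (cocR c r)`, `χ' = tens fun _ : QR Q r => χ`; as in FG: `altSum_kext`, `fix_top`, KTR, BT (the block
defect is `|Q| r δ`), SK, PT. Uses: KTR, CO, CL0, CL1, PR, IS, PT, SK, BT of DC. -/
def KPW_stmt : Prop :=
  ∀ (p : ℕ) [Fact p.Prime] (M : Ideal (integralClosure ℤ ℂ)) (A : Type) [Group A] [Finite A],
    ∃ q : ℕ, 1 ≤ q ∧ ∀ (G E : Type) [Group G] [Group E] [Finite G] [Finite E] (X : Extension G E A),
    IsOp p (⊤ : Subgroup G) ⊥ → ∀ χ ∈ Irr G, Stable X M χ → ∀ δ : ℕ, BlockDefect p M χ δ →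
    ∀ r : ℕ, ∃ (G' E' : Type) (_ : Group G') (_ : Group E') (_ : Finite G') (_ : Finite E')
        (X' : Extension G' E' A) (χ' : G' → ℂ), IsOp p (⊤ : Subgroup G') ⊥ ∧ χ' ∈ Irr G' ∧
        Stable X' M χ' ∧ BlockDefect p M χ' (q * r * δ) ∧ ∀ D n : ℤ,
        (∀ d > D, n ∣ altSum X p M χ d ⊤) →
          n ∣ altSum X' p M χ' (q * r * D) ⊤ - altSum X p M χ D ⊤ ^ r

/-- The alternating sums of `Bound` (of DC, `Spec4`) have the common divisor `n`. -/
def ComDiv (p N m₀ : ℕ) (M : Ideal (integralClosure ℤ ℂ)) (n : ℤ) (D : ℕ) : Prop :=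
  ∀ m ≥ m₀, ∀ (G E : Type) [Group G] [Group E] [Finite G] [Finite E]
    (X : Extension G E (alternatingGroup (Fin m))),
    IsOp p (⊤ : Subgroup G) ⊥ → ∀ χ ∈ Irr G, Stable X M χ → BlockDefect p M χ D →
      ∀ d : ℤ, (N : ℤ) ∣ d → n ∣ altSum X p M χ d ⊤

/-- **KFN** (medium). The criterion. Proof. (→) as in FG (`Bound` holds for `k = 1`). (←) Suppose `¬ Dade p M`. By FG (for `max m₀ 5`) there
are `c > 0`, `D₁ ≥ 1` such that for all `k ≥ 1` the bound fails: there are data with `m ≥ max m₀ 5`, block defect `k D₁`, `N ∣ d` and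
`altSum ≥ exp (c k D₁)`. For `k = 1` let these data be `X`, `χ`, `d`, `v = altSum X p M χ d ⊤ ≠ 0`, and `A` the alternating group. The
block has positive defect (BE), `d ≥ 1` (D6). By KIN (KNA) and `v ≠ 0` for every prime `l` some alternating sum `altSum X' p M χ' d' ⊤` with
quotient `A`, `d' ≥ 1` is not divisible by `l`; then the block of `χ'` is stable (ST), of positive defect (D5), so its block defect `δ_l`
is positive (BE); for the primes `l` which do not divide `v` take `X' = X`, `χ' = χ`, `δ_l = D₁`. Let `D'` be the largest `d'` such that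
`altSum X' p M χ' d' ⊤` is not divisible by `l` (FN). With `q` from KPW for `A` (`n = l`) there are for every `r ≥ 1` data with quotient `A`,
block defect `q r δ_l` and an alternating sum for `q r D'` which is not divisible by `l` (`l` does not divide the `r`-th power). Let
`D₀ = D₁ (N q D₁ ∏ δ_l)`, the product over the prime divisors `l` of `v`; it is divisible by `D₁` and by `N q δ_l` for every prime
`l`. By hypothesis for `c`, `D₀` there is `k`: `Bound .. c (k D₀)` contradicts the failure for `k D₀ / D₁`. If `n ≥ 2` is a common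
divisor let `l` be a prime divisor of `n` and `r = k D₀ / (q δ_l)`, a multiple of `N`: there are data with block defect `k D₀`, `d = q r D'`
divisible by `N`, and `altSum` not divisible by `l`, a contradiction. Uses: FG, BE, ST, FN of DC, D5, D6 of DI, KIN, KNA, KPW. -/
def KFN_stmt : Prop :=
  ∀ (p N m₀ : ℕ), p.Prime → 1 ≤ N → ∀ M : Ideal (integralClosure ℤ ℂ), M.IsMaximal →
    (p : integralClosure ℤ ℂ) ∈ M →
    (Dade p M ↔ ∀ c : ℝ, 0 < c → ∀ D₀ : ℕ, 1 ≤ D₀ → ∃ k : ℕ, 1 ≤ k ∧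
      (Bound p N m₀ M c (k * D₀) ∨ ∃ n : ℤ, 2 ≤ n ∧ ComDiv p N m₀ M n (k * D₀)))

end Pool.Agent.KZ
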