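import Pool.Agent.helper12.TY.All
import Pool.Agent.helper3.KZ.KRL
import Pool.Agent.helper10.KZ.KDP
import Pool.Agent.helper11.KZ.KNA
import Pool.Agent.helper11.KZ.KSU
import Pool.Agent.helper16.KZ.KOS
import Pool.Agent.helper20.KZ.KBC
import Pool.Agent.helper20.KZ.KEQ
import Pool.Agent.helper24.KZ.KWX
import Pool.Agent.helper27.KZ.KAN
import Pool.Agent.helper27.KZ.KCF
import Pool.Agent.helper27.KZ.KCI
import Pool.Agent.helper27.KZ.KST
import Pool.Agent.helper34.KZ.KEH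
import Pool.Agent.helper45.KZ.KDL
import Pool.Agent.helper45.KZ.KIN
import Pool.Agent.helper59.KZ.KPW
import Pool.Agent.helper59.KZ.KTR
import Pool.Agent.helper76.KZ.KWN
import Pool.Agent.helper90.KZ.KEG
import Pool.Agent.helper96.KZ.KBS
import Pool.Agent.helper96.KZ.KBW
import Pool.Agent.helper97.KZ.KCS

/-!
# Project kz (MP_baa4d7_al): assembly
-/

set_option autoImplicit false

namespace Pool.Agent.KZ.All

open Pool.Agent.helper58.DC Pool.Agent.DI Pool.Agent.TY Pool.Agent.KZ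
open Pool.Agent.DR.AllDI Pool.Agent.OB.AllU Pool.Agent.TY.All

theorem kKAN : KAN_stmt := KAN
theorem kKDP : KDP_stmt := KDP kKAN iA3 iA10
theorem kKDL : KDL_stmt := KDL
theorem kKOS : KOS_stmt := KOS kKAN
theorem kKCI : KCI_stmt := KCI iNMx iIFx
theorem kKBC : KBC_stmt := KBC iIRTx iB9
theorem kKBS : KBS_stmt := KBS iIFx iB2 iB5 iB8
theorem kKBW : KBW_stmt := KBW iIFx kKBC kKBS iB11
theorem kKCF : KCF_stmt := KCF kKBW iB2 iB13 iB14 iD2 iSNx
theorem kKCS : KCS_stmt := KCS kKCF iD1 iC9 iC16 iC1 iB2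
theorem kKEH : KEH_stmt := KEH kKCS iA7 iA8 iA14 iC15
theorem kKEG : KEG_stmt := KEG kKCS iA7 iA8 iA14 iC1 iC10 iC15 iC16 iIMx iD0
theorem kKEQ : KEQ_stmt := KEQ kKCS kKAN iA2 iA4 iA7 iA8 iA14 iC15
theorem kKRL : KRL_stmt := KRL kKEH kKDL kKDP kKEQ kKOS kKCI kKEG
theorem kKSU : KSU_stmt := KSU
theorem kKWX : KWX_stmt := KWX Pool.Agent.helper58.DC.All.dSK yPT
theorem kKWN : KWN_stmt :=
  KWN uCL0 uCL1 yPR Pool.Agent.helper58.DC.All.dIS yPT Pool.Agent.helper58.DC.All.dSK uMB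
    Pool.Agent.helper58.DC.All.dFX
theorem kKST : KST_stmt :=
  KST kKRL kKSU kKWX kKWN iD5 iD6 iSTx Pool.Agent.helper58.DC.All.dSK yPT
theorem kKIN : KIN_stmt := KIN kKST
theorem kKNA : KNA_stmt := KNA
theorem kKTR : KTR_stmt := KTR Pool.Agent.helper58.DC.All.dFX
theorem kKPW : KPW_stmt :=
  KPW kKTR Pool.Agent.helper58.DC.All.dCO uCL0 uCL1 yPR Pool.Agent.helper58.DC.All.dIS yPT
    Pool.Agent.helper58.DC.All.dSK Pool.Agent.helper58.DC.All4.dBT

end Pool.Agent.KZ.All
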