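import Pool.Agent.helper12.KZ.All
import Pool.Agent.helper59.KZ.KFN

/-!
# Project kz (MP_baa4d7_al): the final theorem
-/

set_option autoImplicit false

namespace Pool.Agent.KZ

open Pool.Agent.helper58.DC Pool.Agent.DI Pool.Agent.TY

theorem kKFN : KFN_stmt :=
  KFN Pool.Agent.helper58.DC.All4.dFG All.kKIN All.kKNA All.kKPW Pool.Agent.helper58.DC.All4.dBE
    Pool.Agent.DR.AllDI.iSTx Pool.Agent.DR.AllDI.iFNx Pool.Agent.DR.AllDI.iD5 Pool.Agent.DR.AllDI.iD6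

theorem Fin_main (p : ℕ) (hp : p.Prime) (M : Ideal (integralClosure ℤ ℂ)) (hM : M.IsMaximal)
    (hpM : (p : integralClosure ℤ ℂ) ∈ M) (N m₀ : ℕ) (hN : 1 ≤ N) :
    Dade p M ↔
      ∀ c : ℝ, 0 < c → ∀ D₀ : ℕ, 1 ≤ D₀ → ∃ k : ℕ, 1 ≤ k ∧
        ((∀ m ≥ m₀, ∀ (G E : Type) [Group G] [Group E] [Finite G] [Finite E]
            (X : Extension G E (alternatingGroup (Fin m))),
            IsOp p (⊤ : Subgroup G) ⊥ → ∀ χ ∈ Irr G,
            (∀ e : E, Induces M (funMap (X.act e) χ) χ) →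
            BlockDefect p M χ (k * D₀) →
            ∀ d : ℤ, (N : ℤ) ∣ d →
              (altSum X p M χ d ⊤ : ℝ) < Real.exp (c * ((k * D₀ : ℕ) : ℝ))) ∨
          ∃ n : ℤ, 2 ≤ n ∧ ∀ m ≥ m₀, ∀ (G E : Type) [Group G] [Group E] [Finite G] [Finite E]
            (X : Extension G E (alternatingGroup (Fin m))),
            IsOp p (⊤ : Subgroup G) ⊥ → ∀ χ ∈ Irr G,
            (∀ e : E, Induces M (funMap (X.act e) χ) χ) →
            BlockDefect p M χ (k * D₀) →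
            ∀ d : ℤ, (N : ℤ) ∣ d → n ∣ altSum X p M χ d ⊤) :=
  kKFN p N m₀ hp hN M hM hpM

end Pool.Agent.KZ
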